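import Pool.Agent.H37.CNZ.Stmts

/-!
# Board `cnz`, row ZHH: the equivariant polynomials `H ℓ = Ψ ℓ A ^ m + λ_ℓ A ^ (m + 1)`
-/

set_option autoImplicit false

namespace Pool.CND

open Finset

lemma zhh_coeff {k : Type} [Field k] {p J : ℕ} (hp : p.Prime) (w : k) (β : ℕ → k) (i : ℕ)
    (hi : i ≤ J) :
    (Polynomial.C w + ∑ j ∈ range (J + 1),
      Polynomial.C (β j) * Polynomial.X ^ (p ^ j)).coeff (p ^ i) = β i := by
  rw [Polynomial.coeff_add, Polynomial.coeff_C, if_neg (pow_ne_zero _ hp.ne_zero), zero_add,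
    Polynomial.finsetSum_coeff, Finset.sum_eq_single i]
  · rw [Polynomial.coeff_C_mul_X_pow, if_pos rfl]
  · intro b _ hb
    rw [Polynomial.coeff_C_mul_X_pow, if_neg]
    intro h
    exact hb ((Nat.pow_right_injective hp.two_le h).symm)
  · intro h
    exact absurd (Finset.mem_range.2 (by omega)) h

lemma zhh_der {k : Type} [Field k] {p J : ℕ} [CharP k p] (w : k) (β : ℕ → k) :
    Polynomial.derivative (Polynomial.C w + ∑ j ∈ range (J + 1),
      Polynomial.C (β j) * Polynomial.X ^ (p ^ j)) = Polynomial.C (β 0) := by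
  rw [Polynomial.derivative_add, Polynomial.derivative_C, zero_add, Polynomial.derivative_sum,
    Finset.sum_eq_single 0]
  · simp
  · intro b _ hb
    rw [Polynomial.derivative_C_mul_X_pow]
    have h0 : ((p ^ b : ℕ) : k) = 0 := by
      rw [Nat.cast_pow, CharP.cast_eq_zero, zero_pow hb]
    rw [h0]
    simp
  · intro h
    exact absurd (Finset.mem_range.2 (by omega)) h

/-- linear algebra over `F_p`: an additive function `c` on the dual, not zero: there is `v ≠ 0` with `f v = 0`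
whenever `c f = 0` -/
lemma zhh_dual_abs {p : ℕ} [Fact p.Prime] {k : Type} [Field k] [CharP k p] (V : Type)
    [AddCommGroup V] [Module (ZMod p) V] [Finite V] (c : (V →+ ZMod p) → k)
    (hc : ∀ f g, c (f + g) = c f + c g) (f0 : V →+ ZMod p) (h0 : c f0 ≠ 0) :
    ∃ v : V, v ≠ 0 ∧ ∀ f : V →+ ZMod p, f v ≠ 0 → c f ≠ 0 := by
  letI : Algebra (ZMod p) k := ZMod.algebra k p
  haveI : Module.Finite (ZMod p) V := Module.Finite.of_finite
  let Φ : (V →ₗ[ZMod p] ZMod p) →+ k :=
    { toFun := fun f => c f.toAddMonoidHom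
      map_zero' := by
        have h1 := hc 0 0
        rw [add_zero] at h1
        exact left_eq_add.1 h1
      map_add' := fun f g => hc f.toAddMonoidHom g.toAddMonoidHom }
  let Φ' : (V →ₗ[ZMod p] ZMod p) →ₗ[ZMod p] k := Φ.toZModLinearMap p
  have hΦ : ∀ f, Φ' f = c f.toAddMonoidHom := fun f => rfl
  have hback : ∀ f : V →+ ZMod p, Φ' (f.toZModLinearMap p) = c f := fun f => rfl
  obtain ⟨g, hg⟩ : ∃ g : k →ₗ[ZMod p] ZMod p, g (Φ' (f0.toZModLinearMap p)) ≠ 0 := by
    by_contra hcon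
    push Not at hcon
    have := (Module.forall_dual_apply_eq_zero_iff (ZMod p) (Φ' (f0.toZModLinearMap p))).1 hcon
    rw [hback] at this
    exact h0 this
  obtain ⟨v, hv⟩ : ∃ v : V, ∀ f : V →ₗ[ZMod p] ZMod p, f v = g (Φ' f) :=
    ⟨(Module.evalEquiv (ZMod p) V).symm (g.comp Φ'), fun f => by
      rw [Module.apply_evalEquiv_symm_apply]; rfl⟩
  refine ⟨v, ?_, ?_⟩
  · rintro rfl
    apply hg
    rw [← hv, map_zero]
  · intro f hf hcf
    apply hf
    have h2 := hv (f.toZModLinearMap p)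
    rw [hback, hcf, map_zero] at h2
    exact h2

/-- an additive function `c` on the homomorphisms, not zero: there is `z ≠ 1` with `ℓ z = 1` whenever `c ℓ = 0` -/
lemma zhh_dual {p : ℕ} {k G : Type} [Field k] [CharP k p] [Group G] [Finite G] (E : Subgroup G)
    (hp : p.Prime) (hE : EA p E) (c : (E →* Multiplicative (ZMod p)) → k)
    (hc : ∀ ℓ ℓ', c (ℓ * ℓ') = c ℓ + c ℓ') (ℓ0 : E →* Multiplicative (ZMod p)) (h0 : c ℓ0 ≠ 0) :
    ∃ z : E, z ≠ 1 ∧ ∀ ℓ : E →* Multiplicative (ZMod p), ℓ z ≠ 1 → c ℓ ≠ 0 := by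
  haveI := Fact.mk hp
  letI i1 : AddCommGroup (Additive E) :=
    { (inferInstance : AddGroup (Additive E)) with
      add_comm := fun a b => by
        have h := hE.2 (Additive.toMul a : E) (Additive.toMul a).2 (Additive.toMul b : E)
          (Additive.toMul b).2
        exact congrArg Additive.ofMul (Subtype.ext h) }
  letI i2 : Module (ZMod p) (Additive E) := AddCommGroup.zmodModule (n := p) (fun x => by
    have h := hE.1 (Additive.toMul x : E) (Additive.toMul x).2
    exact congrArg Additive.ofMul (Subtype.ext h))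
  haveI : Finite (Additive E) := Finite.of_injective (fun x => (Additive.toMul x : E)) (fun _ _ h => h)
  obtain ⟨v, hv0, hv⟩ := zhh_dual_abs (Additive E) (fun f => c (AddMonoidHom.toMultiplicativeRight f))
    (fun f g => hc (AddMonoidHom.toMultiplicativeRight f) (AddMonoidHom.toMultiplicativeRight g))
    (MonoidHom.toAdditiveLeft ℓ0) h0
  refine ⟨Additive.toMul v, hv0, ?_⟩
  intro ℓ hℓ
  exact hv (MonoidHom.toAdditiveLeft ℓ) (fun h => hℓ h)

theorem zhh_thm (hAP : S_XAP) (hRA : S_ZRA) (hRB : S_ZRB) : S_ZHH := by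
  intro p d J k G _ _ _ _ _ E ι Ψ hp hcard hJd hZ m hm hpm hpm1
  obtain ⟨d', e, hd', hed, he0, hA, hAcomp⟩ := hAP p k G ι hp inferInstance hZ.ι_mul
  have hdd : d' = d := Nat.pow_right_injective hp.two_le (by simp only []; rw [← hd', hcard])
  subst hdd
  -- the coefficients of `Ψ ℓ`
  have hβ : ∀ ℓ, ∃ (w : k) (β : ℕ → k), (p = 2 → β 0 = 0) ∧
      Ψ ℓ = Polynomial.C w + ∑ j ∈ range (J + 1), Polynomial.C (β j) * Polynomial.X ^ (p ^ j) ∧
      (∀ i ≤ J, β i = (Ψ ℓ).coeff (p ^ i)) ∧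
      Polynomial.derivative (Ψ ℓ) = Polynomial.C ((Ψ ℓ).coeff 1) := by
    intro ℓ
    obtain ⟨w, β, h1, h2⟩ := hZ.Ψ_form ℓ
    have h3 : ∀ i ≤ J, β i = (Ψ ℓ).coeff (p ^ i) := fun i hi => by
      rw [h2, zhh_coeff hp w β i hi]
    refine ⟨w, β, h1, h2, h3, ?_⟩
    have h4 := h3 0 (Nat.zero_le _)
    rw [pow_zero] at h4
    rw [← h4]
    rw [h2]
    exact zhh_der w β
  obtain ⟨z, hz1, hz⟩ : ∃ z : E, z ≠ 1 ∧
      ∀ ℓ : E →* Multiplicative (ZMod p), ℓ z ≠ 1 → (Ψ ℓ).coeff (p ^ J) ≠ 0 := by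
    obtain ⟨ℓ0, hℓ0⟩ := hZ.Ψ_top
    refine zhh_dual E hp hZ.ea (fun ℓ => (Ψ ℓ).coeff (p ^ J)) ?_ ℓ0 ?_
    · intro ℓ ℓ'
      simp only [hZ.Ψ_mul, Polynomial.coeff_add]
    · intro h
      have h' : (Ψ ℓ0).leadingCoeff = 0 := by
        rw [Polynomial.leadingCoeff, hℓ0]
        exact h
      rw [Polynomial.leadingCoeff_eq_zero] at h'
      rw [h', Polynomial.natDegree_zero] at hℓ0
      exact absurd hℓ0.symm (pow_ne_zero _ hp.ne_zero)
  refine ⟨fun ℓ => Ψ ℓ * Apol ι ^ m +
    Polynomial.C (-((Ψ ℓ).coeff 1) / (((m + 1 : ℕ) : k) * e 0)) * Apol ι ^ (m + 1), z, hz1,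
    ?_, ?_, ?_⟩
  · intro ℓ ℓ'
    simp only [hZ.Ψ_mul, Polynomial.coeff_add]
    rw [show -((Ψ ℓ).coeff 1 + (Ψ ℓ').coeff 1) / (((m + 1 : ℕ) : k) * e 0) =
      -((Ψ ℓ).coeff 1) / (((m + 1 : ℕ) : k) * e 0) +
        -((Ψ ℓ').coeff 1) / (((m + 1 : ℕ) : k) * e 0) by ring, Polynomial.C_add]
    ring
  · intro g ℓ ℓ' hℓ
    have h1 := hZ.Ψ_conj g ℓ ℓ' hℓ
    have h2 : (Ψ ℓ').coeff 1 = (Ψ ℓ).coeff 1 := by
      obtain ⟨_, _, _, _, _, hd1⟩ := hβ ℓ
      have h3 : Polynomial.derivative (Ψ ℓ') = Polynomial.C ((Ψ ℓ).coeff 1) := by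
        rw [← h1, Polynomial.derivative_comp, hd1]
        simp
      have h4 := Polynomial.coeff_derivative (Ψ ℓ') 0
      rw [h3] at h4
      simpa using h4.symm
    simp only [Polynomial.add_comp, Polynomial.mul_comp, Polynomial.pow_comp, Polynomial.C_comp,
      hAcomp g, h1, h2]
  · intro ℓ hℓ
    obtain ⟨w, β, hp2, hform, hco, _⟩ := hβ ℓ
    have hco1 : (Ψ ℓ).coeff 1 = β 0 := by
      have := hco 0 (Nat.zero_le _)
      rw [pow_zero] at this
      exact this.symm
    have hd1 : 1 ≤ d' := by omega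
    have hpd : p ∣ p ^ d' * (m - 1) := Dvd.dvd.mul_right (dvd_pow_self p (by omega)) _
    by_cases hall : ∀ j ≤ J, β j = 0
    · have hΨ : Ψ ℓ = Polynomial.C w := by
        rw [hform, Finset.sum_eq_zero, add_zero]
        intro j hj
        rw [hall j (by have := Finset.mem_range.1 hj; omega)]
        simp
      have hw : w ≠ 0 := by
        rintro rfl
        exact hZ.Ψ_ne ℓ hℓ (by rw [hΨ]; simp)
      obtain ⟨r, hr⟩ := hRB p d' m k e w (Apol ι) hp hed he0 hA hd1 hm hpm hw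
      refine ⟨p ^ d' * (m - 1) + 1, r, le_rfl, ?_, ?_, ?_⟩
      · intro h
        exact hp.one_lt.ne' (Nat.dvd_one.1 ((Nat.dvd_add_right hpd).1 h))
      · beta_reduce
        rw [← hr, hΨ]
        simp
      · intro hz'
        exact absurd (by rw [← hco J le_rfl, hall J le_rfl]) (hz ℓ hz')
    · push Not at hall
      obtain ⟨j0, hj0, hj0'⟩ := hall
      -- the largest index
      obtain ⟨J', hJ', hJ'0, hmax⟩ : ∃ J', J' ≤ J ∧ β J' ≠ 0 ∧ ∀ j ≤ J, J' < j → β j = 0 := by
        classical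
        have hne : ((range (J + 1)).filter (fun j => β j ≠ 0)).Nonempty :=
          ⟨j0, Finset.mem_filter.2 ⟨Finset.mem_range.2 (by omega), hj0'⟩⟩
        have hmem := Finset.max'_mem _ hne
        rw [Finset.mem_filter, Finset.mem_range] at hmem
        refine ⟨((range (J + 1)).filter (fun j => β j ≠ 0)).max' hne, by omega, hmem.2, ?_⟩
        intro j hj hlt
        by_contra hcon
        have := Finset.le_max' ((range (J + 1)).filter (fun j => β j ≠ 0)) j
          (Finset.mem_filter.2 ⟨Finset.mem_range.2 (by omega), hcon⟩)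
        omega
      have hΨ : Ψ ℓ = Polynomial.C w +
          ∑ j ∈ range (J' + 1), Polynomial.C (β j) * Polynomial.X ^ (p ^ j) := by
        rw [hform]
        congr 1
        symm
        apply Finset.sum_subset
        · intro j hj
          rw [Finset.mem_range] at hj ⊢
          omega
        · intro j hj hj'
          rw [Finset.mem_range] at hj hj'
          rw [hmax j (by omega) (by omega)]
          simp
      have hcase : β 0 = 0 ∨ (p ≠ 2 ∧ ¬ p ∣ (m + 1)) := by
        by_cases h2 : p = 2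
        · exact Or.inl (hp2 h2)
        · exact Or.inr ⟨h2, hpm1.resolve_left h2⟩
      obtain ⟨r, hr⟩ := hRA p d' m J' k e β w (Apol ι) hp hed he0 hA (by omega) hm hpm hJ'0 hcase
      refine ⟨p ^ d' * (m - 1) + p ^ J' + 1, r, ?_, ?_, ?_, ?_⟩
      · omega
      · intro h
        rw [add_assoc] at h
        have h' := (Nat.dvd_add_right hpd).1 h
        rcases Nat.eq_zero_or_pos J' with h0 | h0
        · subst h0
          rw [pow_zero] at h'
          have hp2' : p = 2 := (Nat.prime_dvd_prime_iff_eq hp Nat.prime_two).1 h'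
          exact hJ'0 (hp2 hp2')
        · have h3 := (Nat.dvd_add_right (dvd_pow_self p (by omega : J' ≠ 0))).1 h'
          exact hp.one_lt.ne' (Nat.dvd_one.1 h3)
      · beta_reduce
        rw [← hr, hco1, ← hΨ]
      · intro hz'
        have h5 : β J ≠ 0 := by
          rw [hco J le_rfl]
          exact hz ℓ hz'
        have h6 : J' = J := by
          by_contra hne
          exact h5 (hmax J le_rfl (by omega))
        rw [h6]

end Pool.CND
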